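import Mathlib
import Pool.Agent.Wetzel.Chain

/-!
# Ordinal combinatorics for the forcing that codes a real by an ordinal below `ω₂`
-/

namespace Pool.Agent.PFAc

open Set Cardinal Pool.Agent.Wetzel

/-- Linear orders of type `ω₂`: well-orders of size larger than `ℵ₁` all of whose initial
segments have size at most `ℵ₁`. -/
class OmegaTwo (V : Type) [LinearOrder V] : Prop where
  wf : WellFoundedLT V
  mk_Iio : ∀ a : V, #(Set.Iio a) ≤ ℵ₁
  large : ℵ₁ < #V

section OmegaTwo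

variable {V : Type} [LinearOrder V] [hV : OmegaTwo V]

include hV

lemma mk_Iic_le (a : V) : #(Set.Iic a) ≤ ℵ₁ := by
  have h0 : ℵ₀ ≤ (ℵ₁ : Cardinal.{0}) := aleph0_le_aleph 1
  have h : Set.Iic a ⊆ Set.Iio a ∪ {a} := by
    intro x hx
    rcases (Set.mem_Iic.1 hx).lt_or_eq with h | h
    · exact Or.inl h
    · exact Or.inr h
  refine (mk_le_mk_of_subset h).trans ((mk_union_le _ _).trans ?_)
  refine (add_le_add (hV.mk_Iio a) (mk_singleton a).le).trans ?_
  exact (add_eq_left h0 (one_le_aleph0.trans h0)).le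

lemma exists_above {A : Set V} (hA : #A ≤ ℵ₁) : ∃ b, ∀ a ∈ A, a < b := by
  by_contra hcon
  push Not at hcon
  have h0 : ℵ₀ ≤ (ℵ₁ : Cardinal.{0}) := aleph0_le_aleph 1
  have h : (Set.univ : Set V) ⊆ ⋃ a : A, Set.Iic (a : V) := by
    intro b _
    obtain ⟨a, ha, hba⟩ := hcon b
    exact Set.mem_iUnion.2 ⟨⟨a, ha⟩, hba⟩
  have h1 : #V ≤ ℵ₁ := by
    rw [← mk_univ]
    refine (mk_le_mk_of_subset h).trans ((mk_iUnion_le _).trans ?_)
    have h2 : (⨆ a : A, #(Set.Iic (a : V))) ≤ ℵ₁ := ciSup_le' (fun a => mk_Iic_le (a : V))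
    exact (mul_le_mul' hA h2).trans (mul_eq_self h0).le
  exact absurd h1 (not_le.2 hV.large)

lemma exists_above_countable {A : Set V} (hA : A.Countable) : ∃ b, ∀ a ∈ A, a < b :=
  exists_above ((le_aleph0_iff_set_countable.2 hA).trans (aleph0_le_aleph 1))

/-- Pigeonhole: a map from `ω₂` to `ω₁` is bounded on an unbounded set. -/
lemma exists_bounded {W : Type} [LinearOrder W] (hW : #W ≤ ℵ₁) (f : V → W) :
    ∃ γ, ∀ β, ∃ β', β ≤ β' ∧ f β' ≤ γ := by
  by_contra hcon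
  push Not at hcon
  choose g hg using hcon
  obtain ⟨b, hb⟩ := exists_above (A := Set.range g) (mk_range_le.trans hW)
  have := hg (f b) b (hb _ ⟨_, rfl⟩).le
  exact lt_irrefl _ this

end OmegaTwo

section Stationary

variable {W : Type} [LinearOrder W] [hW : OmegaOne W]

/-- Stationary sets, described by closure points of functions. -/
def Stat (A : Set W) : Prop := ∀ F : W → W, ∃ ν ∈ A, (∃ ξ, ξ < ν) ∧ ∀ ξ < ν, F ξ < ν

include hW

lemma exists_closed_point (F : W → W) (a : W) :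
    ∃ ν, a < ν ∧ ∀ ξ < ν, F ξ < ν := by
  have hstep : ∀ x : W, ∃ y, x < y ∧ ∀ ξ ≤ x, F ξ < y := by
    intro x
    have hc : ((F '' Set.Iio x) ∪ {x, F x}).Countable :=
      ((hW.countable_Iio x).image F).union (Set.toFinite _).countable
    obtain ⟨y, hy⟩ := exists_gt_all hc
    refine ⟨y, hy x (Or.inr (by simp)), ?_⟩
    intro ξ hξ
    rcases hξ.lt_or_eq with h | rfl
    · exact hy _ (Or.inl ⟨ξ, h, rfl⟩)
    · exact hy _ (Or.inr (by simp))
  choose g hg1 hg2 using hstep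
  let s : ℕ → W := fun n => Nat.rec (g a) (fun _ x => g x) n
  have hs : ∀ n, s (n + 1) = g (s n) := fun n => rfl
  obtain ⟨ν, hν1, hν2⟩ := exists_lub (A := Set.range s) (Set.countable_range s)
  refine ⟨ν, (hg1 a).trans_le (hν1 (s 0) ⟨0, rfl⟩), ?_⟩
  intro ξ hξ
  obtain ⟨_, ⟨n, rfl⟩, hn⟩ := hν2 ξ hξ
  have h1 := hg2 (s n) ξ hn.le
  rw [← hs] at h1
  exact h1.trans_le (hν1 _ ⟨n + 1, rfl⟩)

lemma stat_univ : Stat (Set.univ : Set W) := by
  intro F
  obtain ⟨a⟩ : Nonempty W := by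
    by_contra h
    rw [not_nonempty_iff] at h
    exact hW.uncountable inferInstance
  obtain ⟨ν, h1, h2⟩ := exists_closed_point F a
  exact ⟨ν, trivial, ⟨a, h1⟩, h2⟩

/-- Countable unions of nonstationary sets are nonstationary. -/
lemma exists_stat_of_iUnion {A : ℕ → Set W} (h : Stat (⋃ n, A n)) : ∃ n, Stat (A n) := by
  by_contra hcon
  simp only [Stat] at hcon
  push Not at hcon
  choose F hF using hcon
  have hG : ∀ ξ, ∃ y, ∀ n, F n ξ < y := by
    intro ξ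
    obtain ⟨y, hy⟩ := exists_gt_all (Set.countable_range (fun n => F n ξ))
    exact ⟨y, fun n => hy _ ⟨n, rfl⟩⟩
  choose G hG using hG
  obtain ⟨ν, hν, hne, hcl⟩ := h G
  obtain ⟨n, hn⟩ := Set.mem_iUnion.1 hν
  obtain ⟨ξ, hξ, hle⟩ := hF n ν hn hne
  exact absurd ((hG ξ n).trans (hcl ξ hξ)) (not_lt.2 hle)

omit hW in
lemma Stat.mono {A B : Set W} (h : Stat A) (hAB : A ⊆ B) : Stat B := by
  intro F
  obtain ⟨ν, hν, h1⟩ := h F
  exact ⟨ν, hAB hν, h1⟩

omit hW in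
lemma not_stat_subsingleton {A : Set W} (hA : A.Subsingleton) : ¬ Stat A := by
  intro h
  obtain ⟨ν, hν, ⟨ξ, hξ⟩, _⟩ := h id
  obtain ⟨ν', hν', ⟨ξ', hξ'⟩, h2⟩ := h (fun _ => ν)
  rw [hA hν' hν] at h2 hξ'
  exact lt_irrefl _ (h2 ξ' hξ')

/-- Splitting a stationary set. -/
lemma exists_split (x : W → ℕ → Bool) (hx : Function.Injective x) {A : Set W} (hA : Stat A) :
    ∃ j, Stat {ν ∈ A | x ν j = true} ∧ Stat {ν ∈ A | x ν j = false} := by
  by_contra hcon
  push Not at hcon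
  have hb : ∀ j, ∃ b : Bool, ¬ Stat {ν ∈ A | x ν j = !b} := by
    intro j
    by_cases h : Stat {ν ∈ A | x ν j = true}
    · exact ⟨true, by simpa using hcon j h⟩
    · exact ⟨false, by simpa using h⟩
  choose b hb using hb
  let B : ℕ → Set W := fun n => Nat.casesOn n {ν ∈ A | x ν = b} (fun j => {ν ∈ A | x ν j = !(b j)})
  have hB : A ⊆ ⋃ n, B n := by
    intro ν hν
    by_cases h : x ν = b
    · exact Set.mem_iUnion.2 ⟨0, hν, h⟩
    · obtain ⟨j, hj⟩ := Function.ne_iff.1 h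
      refine Set.mem_iUnion.2 ⟨j + 1, hν, ?_⟩
      cases h1 : x ν j <;> cases h2 : b j <;> simp_all
  obtain ⟨n, hn⟩ := exists_stat_of_iUnion (hA.mono hB)
  cases n with
  | zero =>
    refine not_stat_subsingleton ?_ hn
    rintro ν ⟨_, h1⟩ ν' ⟨_, h2⟩
    exact hx (h1.trans h2.symm)
  | succ j => exact hb j hn

/-- There is a partition of `ω₁` into countably many stationary sets. -/
lemma exists_stationary_partition (hcard : #W ≤ 𝔠) :
    ∃ i : W → ℕ, ∀ n, Stat {ν | i ν = n} := by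
  classical
  obtain ⟨x, hx⟩ : ∃ x : W → ℕ → Bool, Function.Injective x := by
    have : #W ≤ #(ℕ → Bool) := by
      rw [← power_def, mk_bool, mk_nat, two_power_aleph0]
      exact hcard
    obtain ⟨e⟩ := this
    exact ⟨e, e.injective⟩
  have hstep : ∀ A : {A : Set W // Stat A}, ∃ B : {A : Set W // Stat A} × {A : Set W // Stat A},
      B.1.1 ⊆ A.1 ∧ B.2.1 ⊆ A.1 ∧ Disjoint B.1.1 B.2.1 := by
    rintro ⟨A, hA⟩
    obtain ⟨j, h1, h2⟩ := exists_split x hx hA
    refine ⟨(⟨_, h1⟩, ⟨_, h2⟩), fun ν hν => hν.1, fun ν hν => hν.1, ?_⟩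
    rw [Set.disjoint_left]
    rintro ν ⟨_, h3⟩ ⟨_, h4⟩
    rw [h3] at h4
    exact absurd h4 (by simp)
  choose sp hsp1 hsp2 hsp3 using hstep
  let A : ℕ → {A : Set W // Stat A} := fun n =>
    Nat.rec ⟨Set.univ, stat_univ⟩ (fun _ B => (sp B).2) n
  have hA : ∀ n, A (n + 1) = (sp (A n)).2 := fun n => rfl
  have hanti : ∀ m n, m ≤ n → (A n).1 ⊆ (A m).1 := by
    intro m n hmn
    induction n, hmn using Nat.le_induction with
    | base => exact subset_rfl
    | succ n _ ih => rw [hA]; exact (hsp2 _).trans ih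
  let B : ℕ → Set W := fun n => (sp (A n)).1.1
  have hdisj : ∀ m n, m < n → Disjoint (B m) (B n) := by
    intro m n hmn
    refine (hsp3 (A m)).mono_right ?_
    exact (hsp1 (A n)).trans (by rw [← hA]; exact hanti (m + 1) n hmn)
  have huniq : ∀ ν m n, ν ∈ B m → ν ∈ B n → m = n := by
    intro ν m n hm hn
    rcases lt_trichotomy m n with h | h | h
    · exact absurd hn (Set.disjoint_left.1 (hdisj m n h) hm)
    · exact h
    · exact absurd hm (Set.disjoint_left.1 (hdisj n m h) hn)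
  refine ⟨fun ν => if h : ∃ n, ν ∈ B n then h.choose else 0, ?_⟩
  intro n
  refine Stat.mono (sp (A n)).1.2 ?_
  intro ν hν
  have h : ∃ n, ν ∈ B n := ⟨n, hν⟩
  show (if h : ∃ n, ν ∈ B n then h.choose else 0) = n
  rw [dif_pos h]
  exact huniq ν _ _ h.choose_spec hν

/-- Cofinal sequences in limit points of `ω₁`. -/
lemma exists_ladder : ∃ c : W → ℕ → W, ∀ ν, (∃ ξ, ξ < ν) → (∀ ξ < ν, ∃ ζ, ξ < ζ ∧ ζ < ν) →
    Monotone (c ν) ∧ (∀ n, c ν n < ν) ∧ ∀ ξ < ν, ∃ n, ξ < c ν n := by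
  have h : ∀ ν : W, ∃ f : ℕ → W, (∃ ξ, ξ < ν) → (∀ ξ < ν, ∃ ζ, ξ < ζ ∧ ζ < ν) →
      Monotone f ∧ (∀ n, f n < ν) ∧ ∀ ξ < ν, ∃ n, ξ < f n := by
    intro ν
    by_cases h1 : (∃ ξ, ξ < ν) ∧ (∀ ξ < ν, ∃ ζ, ξ < ζ ∧ ζ < ν)
    · obtain ⟨⟨ξ₀, hξ₀⟩, h2⟩ := h1
      obtain ⟨g, hg⟩ := (hW.countable_Iio ν).exists_eq_range ⟨ξ₀, hξ₀⟩
      have hgν : ∀ n, g n < ν := fun n => by
        have : g n ∈ Set.Iio ν := by rw [hg]; exact ⟨n, rfl⟩
        exact this
      choose! up hup1 hup2 using h2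
      let f : ℕ → W := fun n => Nat.rec ξ₀ (fun k x => max x (up (g k))) n
      have hf : ∀ n, f (n + 1) = max (f n) (up (g n)) := fun n => rfl
      refine ⟨f, fun _ _ => ⟨monotone_nat_of_le_succ (fun n => by rw [hf]; exact le_max_left _ _),
        ?_, ?_⟩⟩
      · intro n
        induction n with
        | zero => exact hξ₀
        | succ n ih => rw [hf]; exact max_lt ih (hup2 _ (hgν n))
      · intro ξ hξ
        have : ξ ∈ Set.Iio ν := hξ
        rw [hg] at this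
        obtain ⟨n, rfl⟩ := this
        exact ⟨n + 1, by rw [hf]; exact lt_max_of_lt_right (hup1 _ (hgν n))⟩
    · exact ⟨fun _ => ν, fun h2 h3 => absurd ⟨h2, h3⟩ h1⟩
  choose c hc using h
  exact ⟨c, hc⟩

end Stationary

/-- Cofinal sequences in countable sets without maximum. -/
lemma exists_ladder_sets {V : Type} [LinearOrder V] [Nonempty V] : ∃ E : Set V → ℕ → V,
    ∀ N : Set V, N.Countable → N.Nonempty → (∀ β ∈ N, ∃ β' ∈ N, β < β') →
    Monotone (E N) ∧ (∀ n, E N n ∈ N) ∧ ∀ β ∈ N, ∃ n, β < E N n := by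
  have h : ∀ N : Set V, ∃ f : ℕ → V, N.Countable → N.Nonempty → (∀ β ∈ N, ∃ β' ∈ N, β < β') →
      Monotone f ∧ (∀ n, f n ∈ N) ∧ ∀ β ∈ N, ∃ n, β < f n := by
    intro N
    by_cases h1 : N.Countable ∧ N.Nonempty ∧ (∀ β ∈ N, ∃ β' ∈ N, β < β')
    · obtain ⟨hc, ⟨β₀, hβ₀⟩, h2⟩ := h1
      obtain ⟨g, hg⟩ := hc.exists_eq_range ⟨β₀, hβ₀⟩
      have hgN : ∀ n, g n ∈ N := fun n => by rw [hg]; exact ⟨n, rfl⟩
      choose! up hup1 hup2 using h2
      let f : ℕ → V := fun n => Nat.rec β₀ (fun k x => max x (up (g k))) n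
      have hf : ∀ n, f (n + 1) = max (f n) (up (g n)) := fun n => rfl
      refine ⟨f, fun _ _ _ => ⟨monotone_nat_of_le_succ (fun n => by
        rw [hf]; exact le_max_left _ _), ?_, ?_⟩⟩
      · intro n
        induction n with
        | zero => exact hβ₀
        | succ n ih =>
          rw [hf]
          rcases max_choice (f n) (up (g n)) with h | h
          · rw [h]; exact ih
          · rw [h]; exact hup1 _ (hgN n)
      · intro β hβ
        rw [hg] at hβ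
        obtain ⟨n, rfl⟩ := hβ
        exact ⟨n + 1, by rw [hf]; exact lt_max_of_lt_right (hup2 _ (hgN n))⟩
    · exact ⟨fun _ => Classical.arbitrary V, fun h2 h3 h4 => absurd ⟨h2, h3, h4⟩ h1⟩
  choose E hE using h
  exact ⟨E, hE⟩

end Pool.Agent.PFAc
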