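import Mathlib
import Pool.Agent.PFAc.Basic

/-!
# The forcing notion coding a sequence of bits by an ordinal below `ω₂`
-/

namespace Pool.Agent.PFAc

open Set Cardinal Pool.Agent.Wetzel

section Nodes

variable {W V : Type} [LinearOrder W] [LinearOrder V]

/-- The strict order of nodes. -/
def Below (x y : W × Set V) : Prop := x.1 < y.1 ∧ x.2 ⊆ y.2 ∧ ∃ β ∈ y.2, ∀ α ∈ x.2, α < β

lemma Below.trans {x y z : W × Set V} (h1 : Below x y) (h2 : Below y z) : Below x z := by
  obtain ⟨β, hβ, h3⟩ := h1.2.2
  exact ⟨h1.1.trans h2.1, h1.2.1.trans h2.2.1, β, h2.2.1 hβ, h3⟩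

lemma Below.irrefl (x : W × Set V) : ¬ Below x x := fun h => lt_irrefl _ h.1

lemma Below.asymm {x y : W × Set V} (h : Below x y) : ¬ Below y x := fun h' =>
  lt_irrefl _ (h.1.trans h'.1)

lemma Below.ne {x y : W × Set V} (h : Below x y) : x ≠ y := by
  rintro rfl
  exact Below.irrefl _ h

variable (e : V → W → V) (c : W → ℕ → W) (E : Set V → ℕ → V) (b : W → Bool)

/-- Good nodes: the second component is countable and closed under `e`. -/
def Good (x : W × Set V) : Prop := x.2.Countable ∧ ∀ β ∈ x.2, ∀ η < x.1, e β η ∈ x.2

/-- The ladder of the second component of `x` meets `z` more often than that of the first one. -/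
def Gt (z x : W × Set V) : Prop := ∃ n, (∃ β ∈ z.2, E x.2 n ≤ β) ∧ z.1 ≤ c x.1 n

/-- The coding relation. -/
def Rel (z x : W × Set V) : Prop := Gt c E z x ↔ b x.1 = true

/-- Conditions: countable closed chains of nodes with a top, satisfying the coding relation below
each of their nodes. -/
structure Cnd where
  /-- the nodes -/
  S : Set (W × Set V)
  /-- the top node -/
  top : W × Set V
  top_mem : top ∈ S
  le_top : ∀ x ∈ S, x = top ∨ Below x top
  good : ∀ x ∈ S, Good e x
  chain : ∀ x ∈ S, ∀ y ∈ S, x = y ∨ Below x y ∨ Below y x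
  closed : ∀ s : ℕ → W × Set V, (∀ n, s n ∈ S) → (∀ n, Below (s n) (s (n + 1))) →
    ∀ ν, IsLUB (Set.range (fun n => (s n).1)) ν → (ν, ⋃ n, (s n).2) ∈ S
  refl : ∀ x ∈ S, (∃ y ∈ S, Below y x) →
    ∃ y ∈ S, Below y x ∧ ∀ z ∈ S, Below y z → Below z x → Rel c E b z x

namespace Cnd

variable {e c E b}

instance : PartialOrder (Cnd e c E b) where
  le p q := q.S ⊆ p.S ∧ ∀ x ∈ p.S, x ∈ q.S ∨ Below q.top x
  le_refl p := ⟨subset_rfl, fun x hx => Or.inl hx⟩
  le_trans p q r hpq hqr := by
    refine ⟨hqr.1.trans hpq.1, ?_⟩
    intro x hx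
    rcases hpq.2 x hx with h | h
    · exact hqr.2 x h
    · rcases hqr.2 q.top q.top_mem with h1 | h1
      · rcases r.le_top _ h1 with h2 | h2
        · rw [h2] at h; exact Or.inr h
        · exact absurd (hqr.1 r.top_mem) (fun h3 => by
            rcases q.le_top _ h3 with h4 | h4
            · exact Below.irrefl _ (h4 ▸ h2)
            · exact Below.asymm h2 h4)
      · exact Or.inr (h1.trans h)
  le_antisymm p q hpq hqp := by
    have hS : p.S = q.S := Set.Subset.antisymm hqp.1 hpq.1
    have htop : p.top = q.top := by
      rcases q.le_top p.top (hqp.1 p.top_mem) with h | h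
      · exact h
      · rcases p.le_top q.top (hpq.1 q.top_mem) with h' | h'
        · exact h'.symm
        · exact absurd h (Below.asymm h')
    cases p; cases q
    simp only at hS htop
    subst hS; subst htop
    rfl

lemma le_def {p q : Cnd e c E b} : p ≤ q ↔ q.S ⊆ p.S ∧ ∀ x ∈ p.S, x ∈ q.S ∨ Below q.top x :=
  Iff.rfl

/-- One-point extensions. -/
def extend (p : Cnd e c E b) (x : W × Set V) (hx : Good e x) (hpx : Below p.top x) :
    Cnd e c E b where
  S := insert x p.S
  top := x
  top_mem := Set.mem_insert _ _
  le_top y hy := by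
    rcases hy with rfl | hy
    · exact Or.inl rfl
    · rcases p.le_top y hy with rfl | h
      · exact Or.inr hpx
      · exact Or.inr (h.trans hpx)
  good y hy := by
    rcases hy with rfl | hy
    · exact hx
    · exact p.good y hy
  chain y hy z hz := by
    have key : ∀ y ∈ p.S, Below y x := fun y hy => by
      rcases p.le_top y hy with rfl | h
      · exact hpx
      · exact h.trans hpx
    rcases hy with rfl | hy <;> rcases hz with rfl | hz
    · exact Or.inl rfl
    · exact Or.inr (Or.inr (key z hz))
    · exact Or.inr (Or.inl (key y hy))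
    · exact p.chain y hy z hz
  closed s hs hbel ν hν := by
    have key : ∀ y ∈ p.S, Below y x := fun y hy => by
      rcases p.le_top y hy with rfl | h
      · exact hpx
      · exact h.trans hpx
    have h1 : ∀ n, s n ∈ p.S := by
      intro n
      rcases hs n with h | h
      · exfalso
        rcases hs (n + 1) with h' | h'
        · have := hbel n
          rw [h, h'] at this
          exact Below.irrefl _ this
        · have := hbel n
          rw [h] at this
          exact Below.asymm this (key _ h')
      · exact h
    exact Or.inr (p.closed s h1 hbel ν hν)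
  refl y hy hyex := by
    have key : ∀ y ∈ p.S, Below y x := fun y hy => by
      rcases p.le_top y hy with rfl | h
      · exact hpx
      · exact h.trans hpx
    rcases hy with rfl | hy
    · refine ⟨p.top, Or.inr p.top_mem, hpx, ?_⟩
      intro z hz h1 h2
      exfalso
      rcases hz with rfl | hz
      · exact Below.irrefl _ h2
      · rcases p.le_top z hz with rfl | h
        · exact Below.irrefl _ h1
        · exact Below.asymm h h1
    · have hyex' : ∃ w ∈ p.S, Below w y := by
        obtain ⟨w, hw, hwy⟩ := hyex
        rcases hw with rfl | hw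
        · exact absurd hwy (Below.asymm (key y hy))
        · exact ⟨w, hw, hwy⟩
      obtain ⟨w, hw, hwy, hrel⟩ := p.refl y hy hyex'
      refine ⟨w, Or.inr hw, hwy, ?_⟩
      intro z hz h1 h2
      rcases hz with rfl | hz
      · exact absurd h2 (Below.asymm (key y hy))
      · exact hrel z hz h1 h2

lemma extend_le (p : Cnd e c E b) (x : W × Set V) (hx : Good e x) (hpx : Below p.top x) :
    p.extend x hx hpx ≤ p := by
  refine ⟨Set.subset_insert _ _, ?_⟩
  intro y hy
  rcases hy with rfl | hy
  · exact Or.inr hpx
  · exact Or.inl hy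

/-- New nodes of an extension of a one-point extension. -/
lemma mem_of_le_extend {p q : Cnd e c E b} {x : W × Set V} {hx : Good e x}
    {hpx : Below p.top x} (hq : q ≤ p.extend x hx hpx) {z : W × Set V} (hz : z ∈ q.S)
    (hnew : z ∉ p.S) : z = x ∨ Below x z := by
  rcases hq.2 z hz with h | h
  · rcases h with h | h
    · exact Or.inl h
    · exact absurd h hnew
  · exact Or.inr h

lemma not_mem_of_below_top {p : Cnd e c E b} {z : W × Set V} (h : Below p.top z) : z ∉ p.S := by
  intro hz
  rcases p.le_top z hz with rfl | h'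
  · exact Below.irrefl _ h
  · exact Below.asymm h h'

lemma top_le {p q : Cnd e c E b} (h : q ≤ p) : p.top = q.top ∨ Below p.top q.top :=
  q.le_top _ (h.1 p.top_mem)

end Cnd

end Nodes

end Pool.Agent.PFAc
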