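import Mathlib
import Pool.Agent.PFAc.Forcing

/-!
# Extensions and limits of conditions
-/

namespace Pool.Agent.PFAc

open Set Cardinal Pool.Agent.Wetzel Cl

variable {W V : Type} [LinearOrder W] [LinearOrder V]
  {e : V → W → V} {c : W → ℕ → W} {E : Set V → ℕ → V} {b : W → Bool}

namespace Cnd

lemma mem_of_below_mem {p q : Cnd e c E b} (h : q ≤ p) {z x : W × Set V} (hz : z ∈ q.S)
    (hx : x ∈ p.S) (hzx : Below z x) : z ∈ p.S := by
  rcases h.2 z hz with h1 | h1
  · exact h1
  · exfalso
    rcases p.le_top x hx with rfl | h2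
    · exact Below.asymm h1 hzx
    · exact Below.asymm h1 (hzx.trans h2)

lemma fst_le_top (p : Cnd e c E b) {z : W × Set V} (hz : z ∈ p.S) : z.1 ≤ p.top.1 := by
  rcases p.le_top z hz with rfl | h
  · exact le_refl _
  · exact h.1.le

lemma snd_subset_top (p : Cnd e c E b) {z : W × Set V} (hz : z ∈ p.S) : z.2 ⊆ p.top.2 := by
  rcases p.le_top z hz with rfl | h
  · exact subset_rfl
  · exact h.2.1

/-- Limits of descending sequences of conditions. -/
lemma exists_limit (p : ℕ → Cnd e c E b) (hp : Antitone p)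
    (hbel : ∀ n, Below (p n).top (p (n + 1)).top) {ν : W} {N : Set V}
    (hν : IsLUB (Set.range (fun n => (p n).top.1)) ν) (hN : N = ⋃ n, (p n).top.2)
    (hrel : ∀ n, ∀ z ∈ (p n).S, z ∉ (p 0).S → Rel c E b z (ν, N)) :
    ∃ q : Cnd e c E b, ∀ n, q ≤ p n := by
  have hub : ∀ n, (p n).top.1 ≤ ν := fun n => hν.1 ⟨n, rfl⟩
  have hsub : ∀ n, (p n).top.2 ⊆ N := fun n => by
    rw [hN]; exact Set.subset_iUnion (fun n => (p n).top.2) n
  have hx : ∀ n, Below (p n).top (ν, N) := by
    intro n
    obtain ⟨β, hβ, h⟩ := (hbel n).2.2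
    exact ⟨(hbel n).1.trans_le (hub (n + 1)), hsub n, β, hsub (n + 1) hβ, h⟩
  have hall : ∀ n, ∀ z ∈ (p n).S, Below z (ν, N) := by
    intro n z hz
    rcases (p n).le_top z hz with rfl | h
    · exact hx n
    · exact h.trans (hx n)
  have hmono : ∀ m n, m ≤ n → (p m).S ⊆ (p n).S := fun m n hmn => (hp hmn).1
  have hback : ∀ m n, ∀ z ∈ (p m).S, ∀ x ∈ (p n).S, Below z x → z ∈ (p n).S := by
    intro m n z hz x hx' hzx
    rcases le_total m n with h | h
    · exact hmono m n h hz
    · exact mem_of_below_mem (hp h) hz hx' hzx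
  -- nodes outside the `m`-th condition are above its top
  have habove : ∀ m n, ∀ z ∈ (p n).S, z ∉ (p m).S → Below (p m).top z := by
    intro m n z hz hz'
    rcases le_total m n with h | h
    · exact ((hp h).2 z hz).resolve_left hz'
    · exact absurd (hmono n m h hz) hz'
  refine ⟨⟨insert (ν, N) (⋃ n, (p n).S), (ν, N), Set.mem_insert _ _, ?_, ?_, ?_, ?_, ?_⟩, ?_⟩
  · intro x hxS
    rcases hxS with rfl | hxS
    · exact Or.inl rfl
    · obtain ⟨n, hn⟩ := Set.mem_iUnion.1 hxS
      exact Or.inr (hall n x hn)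
  · intro x hxS
    rcases hxS with rfl | hxS
    · constructor
      · rw [hN]
        exact Set.countable_iUnion (fun n => ((p n).good _ (p n).top_mem).1)
      · intro β hβ η hη
        have hβ' : β ∈ ⋃ n, (p n).top.2 := by rw [← hN]; exact hβ
        obtain ⟨m, hm⟩ := Set.mem_iUnion.1 hβ'
        obtain ⟨k, hk⟩ : ∃ k, η < (p k).top.1 := by
          by_contra hcon
          push Not at hcon
          have : ν ≤ η := hν.2 (by rintro _ ⟨k, rfl⟩; exact hcon k)
          exact absurd hη (not_lt.2 this)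
        have h1 : β ∈ (p (max m k)).top.2 :=
          snd_subset_top _ (hmono m _ (le_max_left _ _) (p m).top_mem) hm
        have h2 : η < (p (max m k)).top.1 :=
          hk.trans_le (fst_le_top _ (hmono k _ (le_max_right _ _) (p k).top_mem))
        exact hsub _ (((p (max m k)).good _ (p (max m k)).top_mem).2 β h1 η h2)
    · obtain ⟨n, hn⟩ := Set.mem_iUnion.1 hxS
      exact (p n).good x hn
  · intro x hxS y hyS
    rcases hxS with rfl | hxS <;> rcases hyS with rfl | hyS
    · exact Or.inl rfl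
    · obtain ⟨n, hn⟩ := Set.mem_iUnion.1 hyS
      exact Or.inr (Or.inr (hall n y hn))
    · obtain ⟨n, hn⟩ := Set.mem_iUnion.1 hxS
      exact Or.inr (Or.inl (hall n x hn))
    · obtain ⟨n, hn⟩ := Set.mem_iUnion.1 hxS
      obtain ⟨m, hm⟩ := Set.mem_iUnion.1 hyS
      exact (p (max n m)).chain x (hmono _ _ (le_max_left _ _) hn) y
        (hmono _ _ (le_max_right _ _) hm)
  · intro s hs hsbel ν' hν'
    have hsU : ∀ n, ∃ m, s n ∈ (p m).S := by
      intro n
      rcases hs n with h | h
      · exfalso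
        have h1 := hsbel n
        rw [h] at h1
        rcases hs (n + 1) with h2 | h2
        · rw [h2] at h1; exact Below.irrefl _ h1
        · obtain ⟨m, hm⟩ := Set.mem_iUnion.1 h2
          exact Below.asymm h1 (hall m _ hm)
      · exact Set.mem_iUnion.1 h
    by_cases hcase : ∃ m, ∀ n, s n ∈ (p m).S
    · obtain ⟨m, hm⟩ := hcase
      exact Or.inr (Set.mem_iUnion.2 ⟨m, (p m).closed s hm hsbel ν' hν'⟩)
    · push Not at hcase
      have hcof : ∀ m, ∃ n, Below (p m).top (s n) := by
        intro m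
        obtain ⟨n, hn⟩ := hcase m
        obtain ⟨k, hk⟩ := hsU n
        exact ⟨n, habove m k _ hk hn⟩
      left
      have h1 : ν' = ν := by
        apply le_antisymm
        · apply hν'.2
          rintro _ ⟨n, rfl⟩
          obtain ⟨k, hk⟩ := hsU n
          exact (hall k _ hk).1.le
        · apply hν.2
          rintro _ ⟨m, rfl⟩
          obtain ⟨n, hn⟩ := hcof m
          exact hn.1.le.trans (hν'.1 ⟨n, rfl⟩)
      have h2 : (⋃ n, (s n).2) = N := by
        apply Set.Subset.antisymm
        · apply Set.iUnion_subset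
          intro n
          obtain ⟨k, hk⟩ := hsU n
          exact (hall k _ hk).2.1
        · rw [hN]
          apply Set.iUnion_subset
          intro m
          obtain ⟨n, hn⟩ := hcof m
          exact hn.2.1.trans (Set.subset_iUnion (fun n => (s n).2) n)
      rw [h1, h2]
  · intro x hxS hex
    rcases hxS with rfl | hxS
    · refine ⟨(p 0).top, Or.inr (Set.mem_iUnion.2 ⟨0, (p 0).top_mem⟩), hx 0, ?_⟩
      intro z hz h1 h2
      rcases hz with rfl | hz
      · exact absurd h2 (Below.irrefl _)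
      · obtain ⟨n, hn⟩ := Set.mem_iUnion.1 hz
        exact hrel n z hn (not_mem_of_below_top h1)
    · obtain ⟨n, hn⟩ := Set.mem_iUnion.1 hxS
      have hex' : ∃ y ∈ (p n).S, Below y x := by
        obtain ⟨y, hy, hyx⟩ := hex
        rcases hy with rfl | hy
        · exact absurd hyx (Below.asymm (hall n x hn))
        · obtain ⟨m, hm⟩ := Set.mem_iUnion.1 hy
          exact ⟨y, hback m n y hm x hn hyx, hyx⟩
      obtain ⟨y, hy, hyx, hr⟩ := (p n).refl x hn hex'
      refine ⟨y, Or.inr (Set.mem_iUnion.2 ⟨n, hy⟩), hyx, ?_⟩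
      intro z hz h1 h2
      rcases hz with rfl | hz
      · exact absurd h2 (Below.asymm (hall n x hn))
      · obtain ⟨m, hm⟩ := Set.mem_iUnion.1 hz
        exact hr z (hback m n z hm x hn h2) h1 h2
  · intro n
    refine ⟨fun z hz => Or.inr (Set.mem_iUnion.2 ⟨n, hz⟩), ?_⟩
    intro z hz
    rcases hz with rfl | hz
    · exact Or.inr (hx n)
    · obtain ⟨m, hm⟩ := Set.mem_iUnion.1 hz
      by_cases h : z ∈ (p n).S
      · exact Or.inl h
      · exact Or.inr (habove n m z hm h)

variable [hW : OmegaOne W] [hV : OmegaTwo V]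

/-- Good nodes above a given one. -/
lemma exists_node (e : V → W → V) (t : W × Set V) (ht : t.2.Countable) (η : W) (B : Set V)
    (hB : B.Countable) :
    ∃ x : W × Set V, Good e x ∧ Below t x ∧ η < x.1 ∧ B ⊆ x.2 := by
  obtain ⟨ν, hν⟩ := exists_gt_all (W := W) (A := {η, t.1}) (Set.toFinite _).countable
  obtain ⟨β, hβ⟩ := exists_above_countable ht
  let R : List V → Set V := fun l => match l with
    | [a] => e a '' Set.Iio ν
    | _ => ∅
  have hR : ∀ l, (R l).Countable := by
    intro l
    show (match l with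
    | [a] => e a '' Set.Iio ν
    | _ => ∅ : Set V).Countable
    split
    · exact (hW.countable_Iio ν).image _
    · exact Set.countable_empty
  have hA : (t.2 ∪ B ∪ {β}).Countable := (ht.union hB).union (Set.countable_singleton β)
  refine ⟨(ν, cl R (t.2 ∪ B ∪ {β})), ⟨cl_countable hR hA, ?_⟩, ⟨hν _ (by simp), ?_, β, ?_, hβ⟩,
    hν _ (by simp), ?_⟩
  · intro a ha η' hη'
    refine cl_closed (l := [a]) (by simpa using ha) ?_
    exact ⟨η', hη', rfl⟩
  · exact fun a ha => subset_cl (Or.inl (Or.inl ha))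
  · exact subset_cl (Or.inr rfl)
  · exact fun a ha => subset_cl (Or.inl (Or.inr ha))

/-- Extensions into a dense set with control of the new nodes. -/
lemma exists_step {D : Set (Cnd e c E b)} (hD : IsDense D) (p : Cnd e c E b) (η : W) (B : Set V)
    (hB : B.Countable) :
    ∃ q ∈ D, q ≤ p ∧ Below p.top q.top ∧ ∀ z ∈ q.S, z ∉ p.S → η < z.1 ∧ B ⊆ z.2 := by
  obtain ⟨x, hx, hpx, hηx, hBx⟩ := exists_node e p.top (p.good _ p.top_mem).1 η B hB
  obtain ⟨q, hqD, hq⟩ := hD (p.extend x hx hpx)
  refine ⟨q, hqD, hq.trans (p.extend_le x hx hpx), ?_, ?_⟩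
  · rcases top_le hq with h | h
    · rw [← h]; exact hpx
    · exact hpx.trans h
  · intro z hz hnew
    rcases mem_of_le_extend hq hz hnew with rfl | h
    · exact ⟨hηx, hBx⟩
    · exact ⟨hηx.trans h.1, hBx.trans h.2.1⟩

end Cnd

end Pool.Agent.PFAc
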