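import Mathlib
import Pool.Agent.PFAc.Limit

/-!
# Properness of the coding forcing
-/

namespace Pool.Agent.PFAc

open Set Cardinal Pool.Agent.Wetzel Cl

variable {W V : Type} [LinearOrder W] [LinearOrder V] [hW : OmegaOne W] [hV : OmegaTwo V]
  {e : V → W → V} {c : W → ℕ → W} {E : Set V → ℕ → V} {b : W → Bool}

/-- The coding forcing is proper. -/
theorem isProper_cnd (hWcard : #W ≤ ℵ₁)
    (hc : ∀ ν, (∃ ξ, ξ < ν) → (∀ ξ < ν, ∃ ζ, ξ < ζ ∧ ζ < ν) →
      Monotone (c ν) ∧ (∀ n, c ν n < ν) ∧ ∀ ξ < ν, ∃ n, ξ < c ν n)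
    (hE : ∀ N : Set V, N.Countable → N.Nonempty → (∀ β ∈ N, ∃ β' ∈ N, β < β') →
      Monotone (E N) ∧ (∀ n, E N n ∈ N) ∧ ∀ β ∈ N, ∃ n, β < E N n) :
    IsProper (Cnd e c E b) := by
  classical
  -- choice functions
  have hupW : ∀ η : W, ∃ η', η < η' := fun η => by
    obtain ⟨y, hy⟩ := exists_gt_all (Set.countable_singleton η)
    exact ⟨y, hy η rfl⟩
  have hupV : ∀ β : V, ∃ β', β < β' := fun β => by
    obtain ⟨y, hy⟩ := exists_above_countable (Set.countable_singleton β)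
    exact ⟨y, hy β rfl⟩
  choose upW hupW using hupW
  choose upV hupV using hupV
  obtain ⟨w₀⟩ : Nonempty W := by
    by_contra h
    rw [not_nonempty_iff] at h
    exact hW.uncountable inferInstance
  obtain ⟨v₀, _⟩ := exists_above_countable (V := V) Set.countable_empty
  have hstep : ∀ (p : Cnd e c E b) (D : Set (Cnd e c E b)) (η : W) (β₀ β : V), ∃ q,
      IsDense D → (q ∈ D ∧ q ≤ p ∧ Below p.top q.top ∧
        ∀ z ∈ q.S, z ∉ p.S → η < z.1 ∧ ({β₀, β} : Set V) ⊆ z.2) := by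
    intro p D η β₀ β
    by_cases hD : IsDense D
    · obtain ⟨q, h1, h2, h3, h4⟩ := Cnd.exists_step hD p η {β₀, β} (Set.toFinite _).countable
      exact ⟨q, fun _ => ⟨h1, h2, h3, h4⟩⟩
    · exact ⟨p, fun h => absurd h hD⟩
  choose Q hQ using hstep
  have hγ : ∀ (p : Cnd e c E b) (D : Set (Cnd e c E b)) (η : W) (β₀ : V), ∃ γ : W,
      ∀ β, ∃ β', β ≤ β' ∧ (Q p D η β₀ β').top.1 ≤ γ := fun p D η β₀ =>
    exists_bounded hWcard (fun β => (Q p D η β₀ β).top.1)
  choose γ hγ using hγ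
  choose up hup1 hup2 using hγ
  have hδ : ∀ (p : Cnd e c E b) (D : Set (Cnd e c E b)) (β₀ : V), ∃ δ : V,
      ∀ η : W, ∀ α ∈ (Q p D η β₀ β₀).top.2, α < δ := by
    intro p D β₀
    have h0 : ℵ₀ ≤ (ℵ₁ : Cardinal.{0}) := aleph0_le_aleph 1
    have hsmall : #(⋃ η : W, (Q p D η β₀ β₀).top.2 : Set V) ≤ ℵ₁ := by
      refine (mk_iUnion_le _).trans ?_
      refine (mul_le_mul' hWcard (ciSup_le' (fun η => ?_))).trans (mul_eq_self h0).le
      exact (le_aleph0_iff_set_countable.2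
        ((Q p D η β₀ β₀).good _ (Q p D η β₀ β₀).top_mem).1).trans h0
    obtain ⟨δ, hδ⟩ := exists_above hsmall
    exact ⟨δ, fun η α hα => hδ α (Set.mem_iUnion.2 ⟨η, hα⟩)⟩
  choose δ₀ hδ₀ using hδ
  let Y : Type := (Cnd e c E b ⊕ Set (Cnd e c E b)) ⊕ (W ⊕ V)
  refine isProper_of_closure (W ⊕ V) (fun l => match l with
      | [] => {Sum.inl (Sum.inr Set.univ), Sum.inr (Sum.inl w₀), Sum.inr (Sum.inr v₀)}
      | [Sum.inr (Sum.inl η)] =>
        (fun ξ => Sum.inr (Sum.inl ξ)) '' Set.Iio η ∪ {Sum.inr (Sum.inl (upW η))}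
      | [Sum.inr (Sum.inr β)] => {Sum.inr (Sum.inr (upV β))}
      | [Sum.inr (Sum.inr β), Sum.inr (Sum.inl η)] => {Sum.inr (Sum.inr (e β η))}
      | [Sum.inl (Sum.inl p)] =>
        {Sum.inr (Sum.inl p.top.1)} ∪ (fun α => Sum.inr (Sum.inr α)) '' p.top.2
      | [Sum.inl (Sum.inl p), Sum.inl (Sum.inr D), Sum.inr (Sum.inl η), Sum.inr (Sum.inr β₀)] =>
        {Sum.inr (Sum.inl (γ p D η β₀)), Sum.inr (Sum.inr (δ₀ p D β₀)),
          Sum.inl (Sum.inl (Q p D η β₀ β₀))}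
      | [Sum.inl (Sum.inl p), Sum.inl (Sum.inr D), Sum.inr (Sum.inl η), Sum.inr (Sum.inr β₀),
          Sum.inr (Sum.inr β)] => {Sum.inl (Sum.inl (Q p D η β₀ (up p D η β₀ β)))}
      | _ => ∅) ?_ ?_
  · intro l
    split
    · exact (Set.toFinite _).countable
    · exact ((hW.countable_Iio _).image _).union (Set.countable_singleton _)
    · exact Set.countable_singleton _
    · exact Set.countable_singleton _
    · exact (Set.countable_singleton _).union ((Cnd.good _ _ (Cnd.top_mem _)).1.image _)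
    · exact (Set.toFinite _).countable
    · exact Set.countable_singleton _
    · exact Set.countable_empty
  · intro M hMc hM p₀ hp₀
    have hM0 := hM [] (by simp)
    have hMuniv : Sum.inl (Sum.inr Set.univ) ∈ M := hM0 (Or.inl rfl)
    have hMw₀ : Sum.inr (Sum.inl w₀) ∈ M := hM0 (Or.inr (Or.inl rfl))
    have hMv₀ : Sum.inr (Sum.inr v₀) ∈ M := hM0 (Or.inr (Or.inr rfl))
    have hMW : ∀ η : W, Sum.inr (Sum.inl η) ∈ M →
        (∀ ξ < η, Sum.inr (Sum.inl ξ) ∈ M) ∧ Sum.inr (Sum.inl (upW η)) ∈ M := by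
      intro η hη
      have h := hM [Sum.inr (Sum.inl η)] (by simpa using hη)
      exact ⟨fun ξ hξ => h (Or.inl ⟨ξ, hξ, rfl⟩), h (Or.inr rfl)⟩
    have hMV : ∀ β : V, Sum.inr (Sum.inr β) ∈ M → Sum.inr (Sum.inr (upV β)) ∈ M := by
      intro β hβ
      exact hM [Sum.inr (Sum.inr β)] (by simpa using hβ) rfl
    have hMe : ∀ (β : V) (η : W), Sum.inr (Sum.inr β) ∈ M → Sum.inr (Sum.inl η) ∈ M →
        Sum.inr (Sum.inr (e β η)) ∈ M := by
      intro β η hβ hη
      refine hM [Sum.inr (Sum.inr β), Sum.inr (Sum.inl η)] ?_ rfl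
      intro x hx
      simp only [List.mem_cons, List.not_mem_nil, or_false] at hx
      rcases hx with rfl | rfl
      · exact hβ
      · exact hη
    have hMp : ∀ p : Cnd e c E b, Sum.inl (Sum.inl p) ∈ M → Sum.inr (Sum.inl p.top.1) ∈ M ∧
        ∀ α ∈ p.top.2, Sum.inr (Sum.inr α) ∈ M := by
      intro p hp
      have h := hM [Sum.inl (Sum.inl p)] (by simpa using hp)
      exact ⟨h (Or.inl rfl), fun α hα => h (Or.inr ⟨α, hα, rfl⟩)⟩
    have hMQ : ∀ (p : Cnd e c E b) (D : Set (Cnd e c E b)) (η : W) (β₀ : V),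
        Sum.inl (Sum.inl p) ∈ M → Sum.inl (Sum.inr D) ∈ M → Sum.inr (Sum.inl η) ∈ M →
        Sum.inr (Sum.inr β₀) ∈ M → Sum.inr (Sum.inl (γ p D η β₀)) ∈ M ∧
          Sum.inr (Sum.inr (δ₀ p D β₀)) ∈ M ∧ Sum.inl (Sum.inl (Q p D η β₀ β₀)) ∈ M := by
      intro p D η β₀ hp hD hη hβ₀
      have h := hM [Sum.inl (Sum.inl p), Sum.inl (Sum.inr D), Sum.inr (Sum.inl η),
        Sum.inr (Sum.inr β₀)] (by
          intro x hx
          simp only [List.mem_cons, List.not_mem_nil, or_false] at hx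
          rcases hx with rfl | rfl | rfl | rfl
          · exact hp
          · exact hD
          · exact hη
          · exact hβ₀)
      exact ⟨h (Or.inl rfl), h (Or.inr (Or.inl rfl)), h (Or.inr (Or.inr rfl))⟩
    have hMQ' : ∀ (p : Cnd e c E b) (D : Set (Cnd e c E b)) (η : W) (β₀ β : V),
        Sum.inl (Sum.inl p) ∈ M → Sum.inl (Sum.inr D) ∈ M → Sum.inr (Sum.inl η) ∈ M →
        Sum.inr (Sum.inr β₀) ∈ M → Sum.inr (Sum.inr β) ∈ M →
        Sum.inl (Sum.inl (Q p D η β₀ (up p D η β₀ β))) ∈ M := by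
      intro p D η β₀ β hp hD hη hβ₀ hβ
      refine hM [Sum.inl (Sum.inl p), Sum.inl (Sum.inr D), Sum.inr (Sum.inl η),
        Sum.inr (Sum.inr β₀), Sum.inr (Sum.inr β)] ?_ rfl
      intro x hx
      simp only [List.mem_cons, List.not_mem_nil, or_false] at hx
      rcases hx with rfl | rfl | rfl | rfl | rfl
      · exact hp
      · exact hD
      · exact hη
      · exact hβ₀
      · exact hβ
    -- the limit node
    let A : Set W := {η | Sum.inr (Sum.inl η) ∈ M}
    let N : Set V := {β | Sum.inr (Sum.inr β) ∈ M}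
    have hAc : A.Countable := hMc.preimage (f := fun η : W => (Sum.inr (Sum.inl η) : Y))
      (Sum.inr_injective.comp Sum.inl_injective)
    have hNc : N.Countable := hMc.preimage (f := fun β : V => (Sum.inr (Sum.inr β) : Y))
      (Sum.inr_injective.comp Sum.inr_injective)
    obtain ⟨δ, hδ1, hδ2⟩ := exists_lub hAc
    have hAδ : ∀ η, η ∈ A ↔ η < δ := by
      intro η
      constructor
      · intro hη
        exact (hupW η).trans_le (hδ1 _ (hMW η hη).2)
      · intro hη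
        obtain ⟨η', hη', hlt⟩ := hδ2 η hη
        exact (hMW η' hη').1 η hlt
    obtain ⟨hcmono, hclt, hccof⟩ := hc δ ⟨w₀, (hAδ w₀).1 hMw₀⟩ (by
      intro ξ hξ
      exact ⟨upW ξ, hupW ξ, (hAδ _).1 (hMW ξ ((hAδ ξ).2 hξ)).2⟩)
    obtain ⟨hEmono, hEmem, hEcof⟩ := hE N hNc ⟨v₀, hMv₀⟩ (by
      intro β hβ
      exact ⟨upV β, hMV β hβ, hupV β⟩)
    -- the step
    have key : ∀ (p : Cnd e c E b) (D : Set (Cnd e c E b)) (η : W) (β₀ : V),
        Sum.inl (Sum.inl p) ∈ M → Sum.inl (Sum.inr D) ∈ M → IsDense D → η ∈ A → β₀ ∈ N →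
        ∃ q : Cnd e c E b, Sum.inl (Sum.inl q) ∈ M ∧ q ∈ D ∧ q ≤ p ∧ Below p.top q.top ∧
          η < q.top.1 ∧ β₀ ∈ q.top.2 ∧ ∀ z ∈ q.S, z ∉ p.S → Rel c E b z (δ, N) := by
      intro p D η β₀ hp hDM hD hη hβ₀
      by_cases hbit : b δ = true
      · have hγM := (hMQ p D η β₀ hp hDM hη hβ₀).1
        obtain ⟨n, hn⟩ := hccof _ ((hAδ _).1 hγM)
        have hq := hQ p D η β₀ (up p D η β₀ (E N n)) hD
        have hnew := Cnd.not_mem_of_below_top hq.2.2.1
        refine ⟨_, hMQ' p D η β₀ (E N n) hp hDM hη hβ₀ (hEmem n), hq.1, hq.2.1, hq.2.2.1,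
          (hq.2.2.2 _ (Cnd.top_mem _) hnew).1,
          (hq.2.2.2 _ (Cnd.top_mem _) hnew).2 (by simp), ?_⟩
        intro z hz hzp
        have h1 := (hq.2.2.2 z hz hzp).2
        have h2 : z.1 ≤ γ p D η β₀ := (Cnd.fst_le_top _ hz).trans (hup2 p D η β₀ _)
        have hgt : Gt c E z (δ, N) := ⟨n, ⟨_, h1 (by simp), hup1 p D η β₀ _⟩, h2.trans hn.le⟩
        exact ⟨fun _ => hbit, fun _ => hgt⟩
      · have hδM := (hMQ p D η β₀ hp hDM hη hβ₀).2.1
        obtain ⟨n, hn⟩ := hEcof _ hδM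
        have hη' : max η (c δ n) ∈ A := by
          rcases max_choice η (c δ n) with h | h
          · rw [h]; exact hη
          · rw [h]; exact (hAδ _).2 (hclt n)
        have hq := hQ p D (max η (c δ n)) β₀ β₀ hD
        have hnew := Cnd.not_mem_of_below_top hq.2.2.1
        refine ⟨_, (hMQ p D _ β₀ hp hDM hη' hβ₀).2.2, hq.1, hq.2.1, hq.2.2.1,
          (le_max_left _ _).trans_lt (hq.2.2.2 _ (Cnd.top_mem _) hnew).1,
          (hq.2.2.2 _ (Cnd.top_mem _) hnew).2 (by simp), ?_⟩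
        intro z hz hzp
        have h1 : c δ n < z.1 := (le_max_right _ _).trans_lt (hq.2.2.2 z hz hzp).1
        have hngt : ¬ Gt c E z (δ, N) := by
          rintro ⟨m, ⟨β, hβ, hmβ⟩, hzm⟩
          have h2 : β < δ₀ p D β₀ := hδ₀ p D β₀ _ _ (Cnd.snd_subset_top _ hz hβ)
          have h3 : E N m < E N n := (hmβ.trans_lt h2).trans hn
          have h4 : m < n := by
            by_contra hcon
            exact absurd (hEmono (not_lt.1 hcon)) (not_le.2 h3)
          have h5 : c δ m ≤ c δ n := hcmono h4.le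
          exact absurd (hzm.trans h5) (not_le.2 h1)
        exact ⟨fun h => absurd h hngt, fun h => absurd h hbit⟩
    -- enumerate the tasks
    let T : Set (Set (Cnd e c E b) × W × V) :=
      {t | Sum.inl (Sum.inr t.1) ∈ M ∧ IsDense t.1 ∧ t.2.1 ∈ A ∧ t.2.2 ∈ N}
    have hTc : T.Countable := by
      have h1 : {D : Set (Cnd e c E b) | (Sum.inl (Sum.inr D) : Y) ∈ M}.Countable :=
        hMc.preimage (f := fun D : Set (Cnd e c E b) => (Sum.inl (Sum.inr D) : Y))
          (Sum.inl_injective.comp Sum.inr_injective)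
      refine Set.Countable.mono ?_ (h1.prod (hAc.prod hNc))
      intro t ht
      exact ⟨ht.1, ht.2.2.1, ht.2.2.2⟩
    have huniv : IsDense (Set.univ : Set (Cnd e c E b)) := fun p => ⟨p, trivial, le_refl _⟩
    have hTne : T.Nonempty := ⟨(Set.univ, w₀, v₀), hMuniv, huniv, hMw₀, hMv₀⟩
    obtain ⟨t, ht⟩ := hTc.exists_eq_range hTne
    have htT : ∀ n, t n ∈ T := fun n => by rw [ht]; exact ⟨n, rfl⟩
    choose! nxt hn1 hn2 hn3 hn4 hn5 hn6 hn7 using key
    let p : ℕ → Cnd e c E b := fun n =>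
      Nat.rec p₀ (fun i q => nxt q (t i).1 (t i).2.1 (t i).2.2) n
    have hps : ∀ n, p (n + 1) = nxt (p n) (t n).1 (t n).2.1 (t n).2.2 := fun n => rfl
    have hpM : ∀ n, Sum.inl (Sum.inl (p n)) ∈ M := by
      intro n
      induction n with
      | zero => exact hp₀
      | succ n ih =>
        rw [hps]
        exact hn1 _ _ _ _ ih (htT n).1 (htT n).2.1 (htT n).2.2.1 (htT n).2.2.2
    have hpD : ∀ n, p (n + 1) ∈ (t n).1 := fun n => by
      rw [hps]
      exact hn2 _ _ _ _ (hpM n) (htT n).1 (htT n).2.1 (htT n).2.2.1 (htT n).2.2.2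
    have hple : ∀ n, p (n + 1) ≤ p n := fun n => by
      rw [hps]
      exact hn3 _ _ _ _ (hpM n) (htT n).1 (htT n).2.1 (htT n).2.2.1 (htT n).2.2.2
    have hpbel : ∀ n, Below (p n).top (p (n + 1)).top := fun n => by
      rw [hps]
      exact hn4 _ _ _ _ (hpM n) (htT n).1 (htT n).2.1 (htT n).2.2.1 (htT n).2.2.2
    have hpη : ∀ n, (t n).2.1 < (p (n + 1)).top.1 := fun n => by
      rw [hps]
      exact hn5 _ _ _ _ (hpM n) (htT n).1 (htT n).2.1 (htT n).2.2.1 (htT n).2.2.2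
    have hpβ : ∀ n, (t n).2.2 ∈ (p (n + 1)).top.2 := fun n => by
      rw [hps]
      exact hn6 _ _ _ _ (hpM n) (htT n).1 (htT n).2.1 (htT n).2.2.1 (htT n).2.2.2
    have hprel : ∀ n, ∀ z ∈ (p (n + 1)).S, z ∉ (p n).S → Rel c E b z (δ, N) := fun n => by
      rw [hps]
      exact hn7 _ _ _ _ (hpM n) (htT n).1 (htT n).2.1 (htT n).2.2.1 (htT n).2.2.2
    have hanti : Antitone p := antitone_nat_of_succ_le hple
    have hlub : IsLUB (Set.range (fun n => (p n).top.1)) δ := by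
      constructor
      · rintro _ ⟨n, rfl⟩
        exact ((hAδ _).1 (hMp _ (hpM n)).1).le
      · intro u hu
        by_contra hcon
        have hu' : u ∈ A := (hAδ u).2 (not_le.1 hcon)
        have hmem : ((Set.univ, u, v₀) : Set (Cnd e c E b) × W × V) ∈ T :=
          ⟨hMuniv, huniv, hu', hMv₀⟩
        rw [ht] at hmem
        obtain ⟨n, hn⟩ := hmem
        have h1 := hpη n
        rw [hn] at h1
        exact absurd (hu ⟨n + 1, rfl⟩) (not_le.2 h1)
    have hNeq : N = ⋃ n, (p n).top.2 := by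
      apply Set.Subset.antisymm
      · intro β hβ
        have hmem : ((Set.univ, w₀, β) : Set (Cnd e c E b) × W × V) ∈ T :=
          ⟨hMuniv, huniv, hMw₀, hβ⟩
        rw [ht] at hmem
        obtain ⟨n, hn⟩ := hmem
        have h1 := hpβ n
        rw [hn] at h1
        exact Set.mem_iUnion.2 ⟨n + 1, h1⟩
      · exact Set.iUnion_subset (fun n α hα => (hMp _ (hpM n)).2 α hα)
    have hrel : ∀ n, ∀ z ∈ (p n).S, z ∉ (p 0).S → Rel c E b z (δ, N) := by
      intro n
      induction n with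
      | zero => exact fun z hz hz' => absurd hz hz'
      | succ n ih =>
        intro z hz hz'
        by_cases h : z ∈ (p n).S
        · exact ih z h hz'
        · exact hprel n z hz h
    obtain ⟨q, hq⟩ := Cnd.exists_limit p hanti hpbel hlub hNeq hrel
    refine ⟨q, hq 0, ?_⟩
    intro D hDM hD r hr
    have hmem : ((D, w₀, v₀) : Set (Cnd e c E b) × W × V) ∈ T := ⟨hDM, hD, hMw₀, hMv₀⟩
    rw [ht] at hmem
    obtain ⟨n, hn⟩ := hmem
    have h1 := hpD n
    rw [hn] at h1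
    exact ⟨p (n + 1), h1, hpM (n + 1), r, le_refl _, hr.trans (hq (n + 1))⟩

end Pool.Agent.PFAc
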