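import Mathlib
import Pool.Agent.PFAc.Proper

/-!
# Coding reals by ordinals below `ω₂`
-/

namespace Pool.Agent.PFAc

open Set Cardinal Pool.Agent.Wetzel

section Chains

variable {W V : Type} [LinearOrder W] [LinearOrder V]

/-- A coding chain: a closed unbounded chain of nodes satisfying the coding relation. -/
structure IsCodingChain (e : V → W → V) (c : W → ℕ → W) (E : Set V → ℕ → V) (b : W → Bool)
    (T : Set (W × Set V)) : Prop where
  chain : ∀ x ∈ T, ∀ y ∈ T, x = y ∨ Below x y ∨ Below y x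
  good : ∀ x ∈ T, Good e x
  unb : ∀ η, ∃ x ∈ T, η < x.1
  closed : ∀ s : ℕ → W × Set V, (∀ n, s n ∈ T) → (∀ n, Below (s n) (s (n + 1))) →
    ∀ ν, IsLUB (Set.range (fun n => (s n).1)) ν → (ν, ⋃ n, (s n).2) ∈ T
  refl : ∀ x ∈ T, (∃ y ∈ T, Below y x) →
    ∃ y ∈ T, Below y x ∧ ∀ z ∈ T, Below y z → Below z x → Rel c E b z x

variable [hW : OmegaOne W] [hV : OmegaTwo V]
  {e : V → W → V} {c : W → ℕ → W} {E : Set V → ℕ → V} {b : W → Bool}

/-- The forcing axiom gives coding chains. -/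
lemma exists_codingChain (hPFA : PFA) (hWcard : #W ≤ ℵ₁)
    (hc : ∀ ν, (∃ ξ, ξ < ν) → (∀ ξ < ν, ∃ ζ, ξ < ζ ∧ ζ < ν) →
      Monotone (c ν) ∧ (∀ n, c ν n < ν) ∧ ∀ ξ < ν, ∃ n, ξ < c ν n)
    (hE : ∀ N : Set V, N.Countable → N.Nonempty → (∀ β ∈ N, ∃ β' ∈ N, β < β') →
      Monotone (E N) ∧ (∀ n, E N n ∈ N) ∧ ∀ β ∈ N, ∃ n, β < E N n) :
    ∃ T, IsCodingChain e c E b T := by
  classical
  obtain ⟨w₀⟩ : Nonempty W := by
    by_contra h
    rw [not_nonempty_iff] at h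
    exact hW.uncountable inferInstance
  have hne : Nonempty (Cnd e c E b) := by
    refine ⟨⟨{(w₀, ∅)}, (w₀, ∅), rfl, fun x hx => Or.inl hx, ?_, ?_, ?_, ?_⟩⟩
    · rintro x rfl
      exact ⟨Set.countable_empty, fun β hβ => absurd hβ (Set.notMem_empty β)⟩
    · rintro x rfl y rfl
      exact Or.inl rfl
    · intro s hs hbel
      exfalso
      have h1 := hbel 0
      rw [hs 0, hs 1] at h1
      exact Below.irrefl _ h1
    · rintro x rfl ⟨y, rfl, h⟩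
      exact absurd h (Below.irrefl _)
  let D : W → Set (Cnd e c E b) := fun η => {p | η < p.top.1}
  have hD : ∀ η, IsDense (D η) := by
    intro η p
    obtain ⟨x, hx, hpx, hη, _⟩ := Cnd.exists_node e p.top (p.good _ p.top_mem).1 η ∅
      Set.countable_empty
    exact ⟨p.extend x hx hpx, hη, p.extend_le x hx hpx⟩
  obtain ⟨G, ⟨_, _, hGdir⟩, hG⟩ := hPFA (Cnd e c E b) (isProper_cnd hWcard hc hE)
    (Set.range D) (mk_range_le.trans hWcard) (by rintro _ ⟨η, rfl⟩; exact hD η)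
  have hGD : ∀ η, ∃ p ∈ G, η < p.top.1 := by
    intro η
    obtain ⟨p, h1, h2⟩ := hG _ ⟨η, rfl⟩
    exact ⟨p, h1, h2⟩
  -- nodes of members of the filter
  let T : Set (W × Set V) := ⋃ p ∈ G, p.S
  have hmem : ∀ x, x ∈ T ↔ ∃ p ∈ G, x ∈ p.S := by
    intro x
    simp only [T, Set.mem_iUnion, exists_prop]
  have habs : ∀ p ∈ G, ∀ x ∈ T, x.1 ≤ p.top.1 → x ∈ p.S := by
    intro p hp x hx hle
    obtain ⟨q, hq, hxq⟩ := (hmem x).1 hx
    obtain ⟨t, _, htp, htq⟩ := hGdir p hp q hq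
    rcases htp.2 x (htq.1 hxq) with h | h
    · exact h
    · exact absurd h.1 (not_lt.2 hle)
  refine ⟨T, ?_, ?_, ?_, ?_, ?_⟩
  · intro x hx y hy
    obtain ⟨p, hp, hlt⟩ := hGD (max x.1 y.1)
    exact p.chain x (habs p hp x hx ((le_max_left _ _).trans hlt.le)) y
      (habs p hp y hy ((le_max_right _ _).trans hlt.le))
  · intro x hx
    obtain ⟨p, _, hxp⟩ := (hmem x).1 hx
    exact p.good x hxp
  · intro η
    obtain ⟨p, hp, hlt⟩ := hGD η
    exact ⟨p.top, (hmem _).2 ⟨p, hp, p.top_mem⟩, hlt⟩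
  · intro s hs hbel ν hν
    obtain ⟨p, hp, hlt⟩ := hGD ν
    refine (hmem _).2 ⟨p, hp, p.closed s (fun n => habs p hp _ (hs n) ?_) hbel ν hν⟩
    exact (hν.1 ⟨n, rfl⟩).trans hlt.le
  · intro x hx hex
    obtain ⟨p, hp, hlt⟩ := hGD x.1
    have hxp := habs p hp x hx hlt.le
    have hdown : ∀ z ∈ T, Below z x → z ∈ p.S := fun z hz hzx =>
      habs p hp z hz (hzx.1.le.trans hlt.le)
    obtain ⟨y, hy, hyx⟩ := hex
    obtain ⟨y', hy', hyx', hr⟩ := p.refl x hxp ⟨y, hdown y hy hyx, hyx⟩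
    exact ⟨y', (hmem _).2 ⟨p, hp, hy'⟩, hyx', fun z hz h1 h2 => hr z (hdown z hz h2) h1 h2⟩

namespace IsCodingChain

variable {T : Set (W × Set V)}

omit hW hV in
lemma below_of_lt (hT : IsCodingChain e c E b T) {x y : W × Set V} (hx : x ∈ T) (hy : y ∈ T)
    (h : x.1 < y.1) : Below x y := by
  rcases hT.chain x hx y hy with h1 | h1 | h1
  · rw [h1] at h; exact absurd h (lt_irrefl _)
  · exact h1
  · exact absurd h1.1 (not_lt.2 h.le)

omit hW hV in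
lemma eq_of_fst_eq (hT : IsCodingChain e c E b T) {x y : W × Set V} (hx : x ∈ T) (hy : y ∈ T)
    (h : x.1 = y.1) : x = y := by
  rcases hT.chain x hx y hy with h1 | h1 | h1
  · exact h1
  · exact absurd h1.1 (by rw [h]; exact lt_irrefl _)
  · exact absurd h1.1 (by rw [h]; exact lt_irrefl _)

omit hV in
/-- Limit nodes. -/
lemma limit_mem (hT : IsCodingChain e c E b T) {ν : W} (hne : ∃ ξ, ξ < ν)
    (hcof : ∀ ξ < ν, ∃ x ∈ T, ξ < x.1 ∧ x.1 < ν) :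
    (ν, ⋃ x ∈ {x ∈ T | x.1 < ν}, x.2) ∈ T := by
  obtain ⟨ξ₀, hξ₀⟩ := hne
  obtain ⟨g, hg⟩ := (hW.countable_Iio ν).exists_eq_range ⟨ξ₀, hξ₀⟩
  have hgν : ∀ n, g n < ν := fun n => by
    have : g n ∈ Set.Iio ν := by rw [hg]; exact ⟨n, rfl⟩
    exact this
  choose! up hup1 hup2 hup3 using hcof
  let s : ℕ → W × Set V := fun n =>
    Nat.rec (up ξ₀) (fun k x => up (max x.1 (g k))) n
  have hs : ∀ n, s (n + 1) = up (max (s n).1 (g n)) := fun n => rfl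
  have hsν : ∀ n, (s n).1 < ν := by
    intro n
    induction n with
    | zero => exact hup3 _ hξ₀
    | succ n ih => rw [hs]; exact hup3 _ (max_lt ih (hgν n))
  have hsT : ∀ n, s n ∈ T := by
    intro n
    cases n with
    | zero => exact hup1 _ hξ₀
    | succ n => rw [hs]; exact hup1 _ (max_lt (hsν n) (hgν n))
  have hslt : ∀ n, max (s n).1 (g n) < (s (n + 1)).1 := fun n => by
    rw [hs]; exact hup2 _ (max_lt (hsν n) (hgν n))
  have hsbel : ∀ n, Below (s n) (s (n + 1)) := fun n =>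
    hT.below_of_lt (hsT n) (hsT (n + 1)) ((le_max_left _ _).trans_lt (hslt n))
  have hcof' : ∀ ξ < ν, ∃ n, ξ < (s n).1 := by
    intro ξ hξ
    have : ξ ∈ Set.Iio ν := hξ
    rw [hg] at this
    obtain ⟨n, rfl⟩ := this
    exact ⟨n + 1, (le_max_right _ _).trans_lt (hslt n)⟩
  have hlub : IsLUB (Set.range (fun n => (s n).1)) ν := by
    constructor
    · rintro _ ⟨n, rfl⟩
      exact (hsν n).le
    · intro u hu
      by_contra hcon
      obtain ⟨n, hn⟩ := hcof' u (not_le.1 hcon)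
      exact absurd (hu ⟨n, rfl⟩) (not_le.2 hn)
  have h1 := hT.closed s hsT hsbel ν hlub
  have h2 : (⋃ n, (s n).2) = ⋃ x ∈ {x ∈ T | x.1 < ν}, x.2 := by
    apply Set.Subset.antisymm
    · exact Set.iUnion_subset (fun n => Set.subset_biUnion_of_mem
        (u := fun x : W × Set V => x.2) (show s n ∈ {x ∈ T | x.1 < ν} from ⟨hsT n, hsν n⟩))
    · refine Set.iUnion₂_subset ?_
      rintro x ⟨hxT, hxν⟩
      obtain ⟨n, hn⟩ := hcof' x.1 hxν
      exact (hT.below_of_lt hxT (hsT n) hn).2.1.trans (Set.subset_iUnion (fun n => (s n).2) n)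
  rw [h2] at h1
  exact h1

omit hV in
/-- Countable subsets of the union are captured by a node. -/
lemma capture (hT : IsCodingChain e c E b T) {A : Set V} (hA : A.Countable)
    (hsub : A ⊆ ⋃ x ∈ T, x.2) : ∃ x ∈ T, A ⊆ x.2 := by
  have h : ∀ a ∈ A, ∃ x ∈ T, a ∈ x.2 := by
    intro a ha
    have := hsub ha
    simpa only [Set.mem_iUnion, exists_prop] using this
  have hWne : Nonempty W := by
    by_contra h
    rw [not_nonempty_iff] at h
    exact hW.uncountable inferInstance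
  choose! f hf1 hf2 using h
  obtain ⟨η, hη⟩ := exists_gt_all (hA.image (fun a => (f a).1))
  obtain ⟨x, hx, hηx⟩ := hT.unb η
  refine ⟨x, hx, fun a ha => ?_⟩
  exact (hT.below_of_lt (hf1 a ha) hx ((hη _ ⟨a, ha, rfl⟩).trans hηx)).2.1 (hf2 a ha)

omit hW in
/-- The union of a coding chain is an initial segment. -/
lemma exists_Iio (hT : IsCodingChain e c E b T) (hWcard : #W ≤ ℵ₁)
    (he : ∀ β, ∀ α ≤ β, ∃ η, e β η = α) :
    ∃ δ : V, (⋃ x ∈ T, x.2) = Set.Iio δ := by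
  have := hV.wf
  have h0 : ℵ₀ ≤ (ℵ₁ : Cardinal.{0}) := aleph0_le_aleph 1
  have hdown : ∀ β ∈ (⋃ x ∈ T, x.2), ∀ α ≤ β, α ∈ (⋃ x ∈ T, x.2) := by
    intro β hβ α hα
    simp only [Set.mem_iUnion, exists_prop] at hβ ⊢
    obtain ⟨x, hx, hβx⟩ := hβ
    obtain ⟨η, rfl⟩ := he β α hα
    obtain ⟨y, hy, hlt⟩ := hT.unb (max η x.1)
    have hbel := hT.below_of_lt hx hy ((le_max_right _ _).trans_lt hlt)
    exact ⟨y, hy, (hT.good y hy).2 β (hbel.2.1 hβx) η ((le_max_left _ _).trans_lt hlt)⟩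
  have hTcard : #T ≤ ℵ₁ := by
    refine (mk_le_of_injective (f := fun x : T => x.1.1) ?_).trans hWcard
    intro x y h
    exact Subtype.ext (hT.eq_of_fst_eq x.2 y.2 h)
  have hsmall : #(⋃ x ∈ T, x.2 : Set V) ≤ ℵ₁ := by
    rw [Set.biUnion_eq_iUnion]
    refine (mk_iUnion_le _).trans ?_
    refine (mul_le_mul' hTcard (ciSup_le' (fun x => ?_))).trans (mul_eq_self h0).le
    exact (le_aleph0_iff_set_countable.2 (hT.good _ x.2).1).trans h0
  obtain ⟨a, ha⟩ := exists_above hsmall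
  obtain ⟨δ, hδ, hmin⟩ := WellFounded.has_min (wellFounded_lt (α := V))
    {x | x ∉ (⋃ x ∈ T, x.2 : Set V)} ⟨a, fun h => lt_irrefl _ (ha a h)⟩
  refine ⟨δ, Set.Subset.antisymm ?_ ?_⟩
  · intro β hβ
    by_contra hcon
    exact hδ (hdown β hβ δ (not_lt.1 hcon))
  · intro β hβ
    by_contra hcon
    exact hmin β hcon hβ

omit hV in
/-- Two coding chains with the same union code the same bits on a stationary set. -/
lemma bits_eq {b' : W → Bool} {T' : Set (W × Set V)} (hT : IsCodingChain e c E b T)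
    (hT' : IsCodingChain e c E b' T') (hU : (⋃ x ∈ T, x.2) = ⋃ x ∈ T', x.2) {A : Set W}
    (hA : Stat A) : ∃ ν ∈ A, b ν = b' ν := by
  classical
  -- a function whose closure points give common nodes
  have hF : ∀ ξ : W, ∃ y : W, (∃ x ∈ T, ξ < x.1 ∧ x.1 ≤ y ∧ ∃ x' ∈ T', x.2 ⊆ x'.2 ∧ x'.1 ≤ y) ∧
      (∃ x ∈ T', ξ < x.1 ∧ x.1 ≤ y ∧ ∃ x' ∈ T, x.2 ⊆ x'.2 ∧ x'.1 ≤ y) := by
    intro ξ
    obtain ⟨x, hx, hξx⟩ := hT.unb ξ
    obtain ⟨x', hx', hxx'⟩ := hT'.capture (hT.good x hx).1 (by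
      rw [← hU]; exact Set.subset_biUnion_of_mem (u := fun x : W × Set V => x.2) hx)
    obtain ⟨y, hy, hξy⟩ := hT'.unb ξ
    obtain ⟨y', hy', hyy'⟩ := hT.capture (hT'.good y hy).1 (by
      rw [hU]; exact Set.subset_biUnion_of_mem (u := fun x : W × Set V => x.2) hy)
    refine ⟨max (max x.1 x'.1) (max y.1 y'.1), ⟨x, hx, hξx, ?_, x', hx', hxx', ?_⟩,
      ⟨y, hy, hξy, ?_, y', hy', hyy', ?_⟩⟩ <;> simp
  choose F hF1 hF2 using hF
  have hcommon : ∀ ν : W, (∃ ξ, ξ < ν) → (∀ ξ < ν, F ξ < ν) → ∃ N, (ν, N) ∈ T ∧ (ν, N) ∈ T' := by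
    intro ν hne hcl
    have h1 := hT.limit_mem hne (by
      intro ξ hξ
      obtain ⟨x, hx, h2, h3, _⟩ := hF1 ξ
      exact ⟨x, hx, h2, h3.trans_lt (hcl ξ hξ)⟩)
    have h2 := hT'.limit_mem hne (by
      intro ξ hξ
      obtain ⟨x, hx, h2, h3, _⟩ := hF2 ξ
      exact ⟨x, hx, h2, h3.trans_lt (hcl ξ hξ)⟩)
    have h3 : (⋃ x ∈ {x ∈ T | x.1 < ν}, x.2) = ⋃ x ∈ {x ∈ T' | x.1 < ν}, x.2 := by
      apply Set.Subset.antisymm
      · refine Set.iUnion₂_subset ?_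
        rintro x ⟨hxT, hxν⟩
        obtain ⟨y, hy, h4, _, y', hy', h6, h7⟩ := hF1 x.1
        refine ((hT.below_of_lt hxT hy h4).2.1.trans h6).trans ?_
        exact Set.subset_biUnion_of_mem (u := fun x : W × Set V => x.2)
          (show y' ∈ {x ∈ T' | x.1 < ν} from ⟨hy', h7.trans_lt (hcl _ hxν)⟩)
      · refine Set.iUnion₂_subset ?_
        rintro x ⟨hxT, hxν⟩
        obtain ⟨y, hy, h4, _, y', hy', h6, h7⟩ := hF2 x.1
        refine ((hT'.below_of_lt hxT hy h4).2.1.trans h6).trans ?_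
        exact Set.subset_biUnion_of_mem (u := fun x : W × Set V => x.2)
          (show y' ∈ {x ∈ T | x.1 < ν} from ⟨hy', h7.trans_lt (hcl _ hxν)⟩)
    exact ⟨_, h1, by rw [h3]; exact h2⟩
  have hF' : ∀ ξ : W, ∃ ζ, ξ < ζ ∧ ∀ ξ' < ζ, F ξ' < ζ := fun ξ => exists_closed_point F ξ
  choose F₂ hF₂1 hF₂2 using hF'
  obtain ⟨ν, hνA, hne, hcl⟩ := hA (fun ξ => max (F ξ) (F₂ ξ))
  have hcl1 : ∀ ξ < ν, F ξ < ν := fun ξ hξ => (le_max_left _ _).trans_lt (hcl ξ hξ)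
  have hcl2 : ∀ ξ < ν, F₂ ξ < ν := fun ξ hξ => (le_max_right _ _).trans_lt (hcl ξ hξ)
  obtain ⟨N, hN, hN'⟩ := hcommon ν hne hcl1
  refine ⟨ν, hνA, ?_⟩
  obtain ⟨ξ₀, hξ₀⟩ := hne
  obtain ⟨y, hy, hyx, hr⟩ := hT.refl (ν, N) hN (by
    obtain ⟨x, hx, _, h3, _⟩ := hF1 ξ₀
    exact ⟨x, hx, hT.below_of_lt hx hN (h3.trans_lt (hcl1 ξ₀ hξ₀))⟩)
  obtain ⟨y', hy', hyx', hr'⟩ := hT'.refl (ν, N) hN' (by
    obtain ⟨x, hx, _, h3, _⟩ := hF2 ξ₀
    exact ⟨x, hx, hT'.below_of_lt hx hN' (h3.trans_lt (hcl1 ξ₀ hξ₀))⟩)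
  have hmax : max y.1 y'.1 < ν := max_lt hyx.1 hyx'.1
  obtain ⟨K, hK, hK'⟩ := hcommon (F₂ (max y.1 y'.1)) ⟨_, hF₂1 _⟩ (hF₂2 _)
  have hζν : F₂ (max y.1 y'.1) < ν := hcl2 _ hmax
  have e1 := hr _ hK (hT.below_of_lt hy hK ((le_max_left _ _).trans_lt (hF₂1 _)))
    (hT.below_of_lt hK hN hζν)
  have e2 := hr' _ hK' (hT'.below_of_lt hy' hK' ((le_max_right _ _).trans_lt (hF₂1 _)))
    (hT'.below_of_lt hK' hN' hζν)
  exact Bool.eq_iff_iff.2 (e1.symm.trans e2)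

end IsCodingChain

end Chains

end Pool.Agent.PFAc
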