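import Mathlib
import Pool.Agent.PFAc.Coding

/-!
# The Proper Forcing Axiom implies that the continuum is `ℵ₂`
-/

namespace Pool.Agent.PFAc

open Set Cardinal Pool.Agent.Wetzel

/-- A type of order type `ω₁`. -/
abbrev W₁ : Type := (ℵ₁ : Cardinal.{0}).ord.ToType

/-- A type of order type `ω₂`. -/
abbrev W₂ : Type := (ℵ_ 2 : Cardinal.{0}).ord.ToType

lemma mk_W₁ : #W₁ = ℵ₁ := by
  rw [mk_toType, card_ord]

lemma mk_W₂ : #W₂ = ℵ_ 2 := by
  rw [mk_toType, card_ord]

lemma aleph_two : (ℵ_ 2 : Cardinal.{0}) = Order.succ ℵ₁ := by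
  rw [succ_aleph]
  norm_num

instance : OmegaOne W₁ where
  wf := inferInstance
  countable_Iio := by
    intro a
    have h : #(Set.Iio a) < #W₁ := mk_Iio_lt a (by rw [mk_W₁, Ordinal.type_toType])
    rw [mk_W₁] at h
    rw [← le_aleph0_iff_set_countable]
    rwa [← Order.lt_succ_iff, succ_aleph0]
  uncountable := by
    intro h
    have h1 : #W₁ ≤ ℵ₀ := mk_le_aleph0
    rw [mk_W₁] at h1
    exact absurd h1 (not_le.2 aleph0_lt_aleph_one)

instance : OmegaTwo W₂ where
  wf := inferInstance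
  mk_Iio := by
    intro a
    have h : #(Set.Iio a) < #W₂ := mk_Iio_lt a (by rw [mk_W₂, Ordinal.type_toType])
    rw [mk_W₂] at h
    exact Order.lt_succ_iff.1 (h.trans_eq aleph_two)
  large := by
    rw [mk_W₂, aleph_two]
    exact Order.lt_succ _

/-- Countable partial orders are ccc. -/
lemma isCCC_of_countable (P : Type) [PartialOrder P] [Countable P] : IsCCC P := fun A _ =>
  A.to_countable

/-- Finite binary sequences, longer ones being stronger. -/
structure Coh where
  /-- the sequence -/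
  l : List Bool
deriving DecidableEq

instance : PartialOrder Coh where
  le p q := q.l <+: p.l
  le_refl p := List.prefix_rfl
  le_trans p q r h1 h2 := h2.trans h1
  le_antisymm p q h1 h2 := by
    have := h1.eq_of_length_le h2.length_le
    cases p; cases q
    simp only at this
    rw [this]

instance : Countable Coh :=
  Function.Injective.countable (f := Coh.l) (fun p q h => by cases p; cases q; simpa using h)

/-- The forcing axiom refutes the continuum hypothesis. -/
theorem aleph_one_lt_continuum (hPFA : PFA) : (ℵ₁ : Cardinal.{0}) < 𝔠 := by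
  by_contra hcon
  have hc : 𝔠 ≤ (ℵ₁ : Cardinal.{0}) := not_lt.1 hcon
  have : Nonempty Coh := ⟨⟨[]⟩⟩
  let D₁ : (ℕ → Bool) → Set Coh := fun x => {p | ∃ n, ∃ h : n < p.l.length, p.l[n] ≠ x n}
  have hD₁ : ∀ x, IsDense (D₁ x) := by
    intro x p
    refine ⟨⟨p.l ++ [!(x p.l.length)]⟩, ⟨p.l.length, by simp, by simp⟩, List.prefix_append _ _⟩
  let D₂ : ℕ → Set Coh := fun n => {p | n < p.l.length}
  have hD₂ : ∀ n, IsDense (D₂ n) := by
    intro n p
    refine ⟨⟨p.l ++ List.replicate (n + 1) true⟩, ?_, List.prefix_append _ _⟩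
    show n < (p.l ++ List.replicate (n + 1) true).length
    simp
    omega
  obtain ⟨G, ⟨_, _, hGdir⟩, hG⟩ := hPFA Coh (isCCC_of_countable Coh).isProper
    (Set.range D₁ ∪ Set.range D₂) (by
      refine (mk_union_le _ _).trans ?_
      have h0 : ℵ₀ ≤ (ℵ₁ : Cardinal.{0}) := aleph0_le_aleph 1
      have h1 : #(Set.range D₁) ≤ ℵ₁ := by
        refine mk_range_le.trans ?_
        rw [← power_def, mk_bool, mk_nat, two_power_aleph0]
        exact hc
      have h2 : #(Set.range D₂) ≤ ℵ₁ := by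
        refine mk_range_le.trans ?_
        rw [mk_nat]
        exact h0
      exact (add_le_add h1 h2).trans (add_eq_self h0).le) (by
      rintro _ (⟨x, rfl⟩ | ⟨n, rfl⟩)
      · exact hD₁ x
      · exact hD₂ n)
  have h2 : ∀ n, ∃ p ∈ G, n < p.l.length := by
    intro n
    obtain ⟨p, hp, hpn⟩ := hG (D₂ n) (Or.inr ⟨n, rfl⟩)
    exact ⟨p, hp, hpn⟩
  choose q hqG hq using h2
  let x : ℕ → Bool := fun n => (q n).l[n]'(hq n)
  obtain ⟨p, hpG, n, hn, hne⟩ := hG (D₁ x) (Or.inl ⟨x, rfl⟩)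
  obtain ⟨t, _, ht1, ht2⟩ := hGdir p hpG (q n) (hqG n)
  have e1 : p.l <+: t.l := ht1
  have e2 : (q n).l <+: t.l := ht2
  apply hne
  show p.l[n] = (q n).l[n]'(hq n)
  rw [e1.getElem hn, e2.getElem (hq n)]

/-- The forcing axiom implies that the continuum is at most `ℵ₂`. -/
theorem continuum_le (hPFA : PFA) : 𝔠 ≤ (ℵ_ 2 : Cardinal.{0}) := by
  classical
  obtain ⟨i, hi⟩ := exists_stationary_partition (W := W₁)
    (by rw [mk_W₁]; exact (aleph_one_lt_continuum hPFA).le)
  obtain ⟨c, hc⟩ := exists_ladder (W := W₁)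
  have hne : Nonempty W₂ := by
    rw [← mk_ne_zero_iff, mk_W₂]
    exact (aleph_pos 2).ne'
  obtain ⟨E, hE⟩ := exists_ladder_sets (V := W₂)
  have he : ∀ β : W₂, ∃ f : W₁ → W₂, ∀ α ≤ β, ∃ η, f η = α := by
    intro β
    have h1 : #(Set.Iic β) ≤ #W₁ := by rw [mk_W₁]; exact mk_Iic_le β
    obtain ⟨g⟩ := h1
    have : Nonempty (Set.Iic β) := ⟨⟨β, le_refl β⟩⟩
    have hs := Function.invFun_surjective g.injective
    refine ⟨fun w => (Function.invFun g w : Set.Iic β), ?_⟩
    intro α hα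
    obtain ⟨w, hw⟩ := hs ⟨α, hα⟩
    exact ⟨w, congrArg Subtype.val hw⟩
  choose e he using he
  have hT : ∀ r : ℕ → Bool, ∃ T, IsCodingChain e c E (fun ν => r (i ν)) T := fun r =>
    exists_codingChain hPFA mk_W₁.le hc hE
  choose T hT using hT
  have hδ : ∀ r : ℕ → Bool, ∃ δ : W₂, (⋃ x ∈ T r, x.2) = Set.Iio δ := fun r =>
    (hT r).exists_Iio mk_W₁.le he
  choose δ hδ using hδ
  have hinj : Function.Injective δ := by
    intro r r' h
    funext n
    obtain ⟨ν, hν, hb⟩ := (hT r).bits_eq (hT r') (by rw [hδ, hδ, h]) (hi n)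
    have hν' : i ν = n := hν
    simp only [hν'] at hb
    exact hb
  have h := mk_le_of_injective hinj
  rwa [← power_def, mk_bool, mk_nat, two_power_aleph0, mk_W₂] at h

/-- **The Proper Forcing Axiom implies that the continuum is `ℵ₂`** (Todorcevic, Velickovic). -/
theorem continuum_eq (hPFA : PFA) : 𝔠 = (ℵ_ 2 : Cardinal.{0}) := by
  refine le_antisymm (continuum_le hPFA) ?_
  rw [aleph_two]
  exact Order.succ_le_of_lt (aleph_one_lt_continuum hPFA)

end Pool.Agent.PFAc
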